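import Mathlib

/-!
# The radius of convergence of the `q`-deformed real numbers (MP_b13893_an)

For every real number `x` the series `[x]_q` has radius of convergence at least `(3 - √5) / 2`.

The idea. Let `ρ = (√5 - 1) / 2`, so that `ρ² = 1 - ρ = (3 - √5) / 2`. For `|q| ≤ ρ²` the closed disc
`|w - 1| ≤ ρ` is mapped into itself by `w ↦ 1 + q w` (as `|q w| ≤ ρ² (1 + ρ) = ρ`) and by
`w ↦ 1 + q - q / w` (as `|q (w - 1) / w| ≤ ρ² ρ / (1 - ρ) = ρ`), hence by all the maps
`w ↦ [c]_q - q ^ (c - 1) / w` with `c ≥ 2`. So all truncations `[[c_1, ..., c_N]]_q` are holomorphic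
and bounded by `1 + ρ` in the disc `|q| ≤ ρ²`, Cauchy's estimates hold for their coefficients, and
they pass to the limit.
-/

set_option autoImplicit false

open Filter Topology ENNReal

namespace Pool.Agent.Results.MP_b13893_an.RadiusBound

noncomputable section

/-! ### Definitions -/

/-- The variable `q` of the field `ℚ((q))` of formal Laurent series. -/
def q : LaurentSeries ℚ := HahnSeries.single 1 1

/-- The `q`-integer `[c]_q = 1 + q + ... + q ^ (c - 1)`, for a natural number `c`. -/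
def qInt (c : ℕ) : LaurentSeries ℚ := ∑ i ∈ Finset.range c, q ^ i

/-- `qTrunc N c` is the `q`-deformed truncation `[[c 0, c 1, ..., c N]]_q`,
`[[c 0, ..., c N]]_q = [c 0]_q - q ^ (c 0 - 1) / [[c 1, ..., c N]]_q`,
as an element of the field `ℚ((q))`. -/
def qTrunc : ℕ → (ℕ → ℕ) → LaurentSeries ℚ
  | 0, c => qInt (c 0)
  | N + 1, c => qInt (c 0) - q ^ (c 0 - 1) / qTrunc N (fun j => c (j + 1))

/-- `trunc N c` is the real number `[[c 0, c 1, ..., c N]] = c 0 - 1 / [[c 1, ..., c N]]`. -/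
def trunc : ℕ → (ℕ → ℕ) → ℝ
  | 0, c => (c 0 : ℝ)
  | N + 1, c => (c 0 : ℝ) - 1 / trunc N (fun j => c (j + 1))

/-- `x = [[c 0, c 1, ...]]`: the `c j` are integers `≥ 2` and `x` is the limit of the truncations. -/
def IsExpansion (c : ℕ → ℕ) (x : ℝ) : Prop :=
  (∀ j, 2 ≤ c j) ∧ Tendsto (fun N => trunc N c) atTop (𝓝 x)

/-- Convergence in the `q`-adic topology of `ℚ((q))`: for every `n`, all coefficients of index at
most `n` are finally those of the limit. -/
def QAdicTendsto (f : ℕ → LaurentSeries ℚ) (g : LaurentSeries ℚ) : Prop :=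
  ∀ n : ℤ, ∀ᶠ N in atTop, ∀ m : ℤ, m ≤ n → (f N).coeff m = g.coeff m

/-- `F x = [x]_q` for all real numbers `x`: if `x = [[c 0, c 1, ...]]` then the `q`-deformed
truncations tend `q`-adically to `F x`, and `[x - 1]_q = q⁻¹ ([x]_q - 1)` for all `x`. -/
structure IsQReal (F : ℝ → LaurentSeries ℚ) : Prop where
  expansion : ∀ (c : ℕ → ℕ) (x : ℝ), IsExpansion c x → QAdicTendsto (fun N => qTrunc N c) (F x)
  shift : ∀ x : ℝ, F (x - 1) = q⁻¹ * (F x - 1)

/-- The radius of convergence, in `[0, ∞]`, of a formal Laurent series `f`, that is, of the complex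
power series `∑_{n ≥ 0} f_n z ^ n` (the finitely many negative powers play no role). -/
def radius (f : LaurentSeries ℚ) : ℝ≥0∞ :=
  (FormalMultilinearSeries.ofScalars ℂ (fun n : ℕ => ((f.coeff (n : ℤ) : ℚ) : ℂ))).radius

/-! ### Power series -/

/-- `[c]_q` as a power series -/
def pInt (c : ℕ) : PowerSeries ℚ := ∑ i ∈ Finset.range c, PowerSeries.X ^ i

/-- the truncations as power series -/
def pTrunc : ℕ → (ℕ → ℕ) → PowerSeries ℚ
  | 0, c => pInt (c 0)
  | N + 1, c => pInt (c 0) - PowerSeries.X ^ (c 0 - 1) * (pTrunc N (fun j => c (j + 1)))⁻¹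

lemma constCoeff_pInt {c : ℕ} (hc : 1 ≤ c) : PowerSeries.constantCoeff (pInt c) = 1 := by
  obtain ⟨d, rfl⟩ : ∃ d, c = d + 1 := ⟨c - 1, by omega⟩
  rw [pInt, Finset.sum_range_succ', map_add, map_sum]
  simp

lemma constCoeff_pTrunc (N : ℕ) : ∀ c : ℕ → ℕ, (∀ j, 2 ≤ c j) →
    PowerSeries.constantCoeff (pTrunc N c) = 1 := by
  induction N with
  | zero => intro c hc; exact constCoeff_pInt (by have := hc 0; omega)
  | succ N ih =>
    intro c hc
    have h0 := hc 0
    rw [pTrunc, map_sub, constCoeff_pInt (by omega), map_mul, map_pow,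
      PowerSeries.constantCoeff_X, zero_pow (by omega)]
    simp

lemma pTrunc_ne_zero (N : ℕ) (c : ℕ → ℕ) (hc : ∀ j, 2 ≤ c j) : pTrunc N c ≠ 0 := by
  intro h
  have := constCoeff_pTrunc N c hc
  rw [h] at this
  simp at this

lemma coe_pInt (c : ℕ) : ((pInt c : PowerSeries ℚ) : LaurentSeries ℚ) = qInt c := by
  simp [pInt, qInt, q]

lemma coe_pTrunc (N : ℕ) : ∀ c : ℕ → ℕ, (∀ j, 2 ≤ c j) →
    ((pTrunc N c : PowerSeries ℚ) : LaurentSeries ℚ) = qTrunc N c := by
  induction N with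
  | zero => intro c _; exact coe_pInt _
  | succ N ih =>
    intro c hc
    have hc' : ∀ j, 2 ≤ (fun j => c (j + 1)) j := fun j => hc (j + 1)
    have h1 : pTrunc N (fun j => c (j + 1)) * (pTrunc N (fun j => c (j + 1)))⁻¹ = 1 :=
      PowerSeries.mul_inv_cancel _ (by rw [constCoeff_pTrunc N _ hc']; exact one_ne_zero)
    have h2 := congrArg (fun p : PowerSeries ℚ => (p : LaurentSeries ℚ)) h1
    simp only [PowerSeries.coe_mul, PowerSeries.coe_one] at h2
    rw [ih _ hc'] at h2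
    rw [pTrunc, qTrunc, PowerSeries.coe_sub, coe_pInt, PowerSeries.coe_mul, PowerSeries.coe_pow,
      PowerSeries.coe_X, div_eq_mul_inv, ← eq_inv_of_mul_eq_one_right h2]
    rfl

/-! ### `q`-adic convergence -/

lemma pTrunc_dvd (N : ℕ) : ∀ c : ℕ → ℕ, (∀ j, 2 ≤ c j) →
    (PowerSeries.X : PowerSeries ℚ) ^ (N + 1) ∣ pTrunc (N + 1) c - pTrunc N c := by
  induction N with
  | zero =>
    intro c hc
    have h0 := hc 0
    rw [pTrunc, pTrunc, sub_sub_cancel_left]
    refine (dvd_neg).2 (Dvd.dvd.mul_right ?_ _)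
    exact pow_dvd_pow _ (by omega)
  | succ N ih =>
    intro c hc
    have h0 := hc 0
    have hc' : ∀ j, 2 ≤ (fun j => c (j + 1)) j := fun j => hc (j + 1)
    have h1 : pTrunc N (fun j => c (j + 1)) * (pTrunc N (fun j => c (j + 1)))⁻¹ = 1 :=
      PowerSeries.mul_inv_cancel _ (by rw [constCoeff_pTrunc N _ hc']; exact one_ne_zero)
    have h2 : pTrunc (N + 1) (fun j => c (j + 1)) * (pTrunc (N + 1) (fun j => c (j + 1)))⁻¹ = 1 :=
      PowerSeries.mul_inv_cancel _ (by rw [constCoeff_pTrunc (N + 1) _ hc']; exact one_ne_zero)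
    rw [pTrunc, pTrunc.eq_2 c N]
    have h3 : pInt (c 0) - PowerSeries.X ^ (c 0 - 1) * (pTrunc (N + 1) (fun j => c (j + 1)))⁻¹ -
        (pInt (c 0) - PowerSeries.X ^ (c 0 - 1) * (pTrunc N (fun j => c (j + 1)))⁻¹) =
        PowerSeries.X ^ (c 0 - 1) *
        (pTrunc (N + 1) (fun j => c (j + 1)) - pTrunc N (fun j => c (j + 1))) *
        ((pTrunc N (fun j => c (j + 1)))⁻¹ * (pTrunc (N + 1) (fun j => c (j + 1)))⁻¹) := by
      linear_combination (- (PowerSeries.X : PowerSeries ℚ) ^ (c 0 - 1) *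
        (pTrunc N (fun j => c (j + 1)))⁻¹) * h2 + ((PowerSeries.X : PowerSeries ℚ) ^ (c 0 - 1) *
        (pTrunc (N + 1) (fun j => c (j + 1)))⁻¹) * h1
    rw [h3]
    refine Dvd.dvd.mul_right ?_ _
    have h4 : (PowerSeries.X : PowerSeries ℚ) ^ (N + 1 + 1) =
        PowerSeries.X * PowerSeries.X ^ (N + 1) := by ring
    rw [h4]
    refine mul_dvd_mul ?_ (ih _ hc')
    have h5 : (PowerSeries.X : PowerSeries ℚ) ^ 1 ∣ PowerSeries.X ^ (c 0 - 1) :=
      pow_dvd_pow _ (by omega)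
    simpa using h5

lemma coeff_pTrunc_succ {N n : ℕ} (h : n ≤ N) (c : ℕ → ℕ) (hc : ∀ j, 2 ≤ c j) :
    PowerSeries.coeff n (pTrunc (N + 1) c) = PowerSeries.coeff n (pTrunc N c) := by
  have h1 := PowerSeries.X_pow_dvd_iff.1 (pTrunc_dvd N c hc) n (by omega)
  rw [map_sub, sub_eq_zero] at h1
  exact h1

lemma coeff_pTrunc_eq {N n : ℕ} (h : n ≤ N) (c : ℕ → ℕ) (hc : ∀ j, 2 ≤ c j) :
    PowerSeries.coeff n (pTrunc N c) = PowerSeries.coeff n (pTrunc n c) := by
  induction N, h using Nat.le_induction with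
  | base => rfl
  | succ N hN ih => rw [coeff_pTrunc_succ hN c hc, ih]

/-- the limit of the truncations -/
def pLim (c : ℕ → ℕ) : PowerSeries ℚ := PowerSeries.mk fun n => PowerSeries.coeff n (pTrunc n c)

lemma coe_coeff_nat (p : PowerSeries ℚ) (n : ℕ) :
    (p : LaurentSeries ℚ).coeff (n : ℤ) = PowerSeries.coeff n p := by
  simp

lemma coe_coeff_neg (p : PowerSeries ℚ) (m : ℤ) (hm : m < 0) :
    (p : LaurentSeries ℚ).coeff m = 0 := by
  simp [PowerSeries.coeff_coe, hm]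

lemma tendsto_pLim (c : ℕ → ℕ) (hc : ∀ j, 2 ≤ c j) :
    QAdicTendsto (fun N => qTrunc N c) ((pLim c : PowerSeries ℚ) : LaurentSeries ℚ) := by
  intro n
  filter_upwards [eventually_ge_atTop n.toNat] with N hN m hm
  rw [← coe_pTrunc N c hc]
  rcases lt_or_ge m 0 with h | h
  · rw [coe_coeff_neg _ _ h, coe_coeff_neg _ _ h]
  · obtain ⟨k, rfl⟩ := Int.eq_ofNat_of_zero_le h
    rw [coe_coeff_nat, coe_coeff_nat, pLim, PowerSeries.coeff_mk]
    exact coeff_pTrunc_eq (by omega) c hc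

lemma tendsto_unique {f : ℕ → LaurentSeries ℚ} {g h : LaurentSeries ℚ} (hg : QAdicTendsto f g)
    (hh : QAdicTendsto f h) : g = h := by
  ext m
  obtain ⟨N, hN⟩ := ((hg m).and (hh m)).exists
  rw [← hN.1 m le_rfl, hN.2 m le_rfl]

/-! ### The disc `|w - 1| ≤ ρ` -/

/-- `ρ = (√5 - 1) / 2` -/
def rho : ℝ := (√5 - 1) / 2

lemma rho_sq : rho ^ 2 = 1 - rho := by
  have h : √5 ^ 2 = 5 := Real.sq_sqrt (by norm_num)
  rw [rho]; nlinarith

lemma rho_pos : 0 < rho := by
  have h : √5 ^ 2 = 5 := Real.sq_sqrt (by norm_num)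
  have h1 : 0 ≤ √5 := Real.sqrt_nonneg 5
  rw [rho]; nlinarith

lemma rho_lt_one : rho < 1 := by
  have := rho_sq
  have := rho_pos
  nlinarith

lemma rho_sq_eq : rho ^ 2 = (3 - √5) / 2 := by
  rw [rho_sq, rho]; ring

lemma ne_zero_of_disc {w : ℂ} (hw : ‖w - 1‖ ≤ rho) : w ≠ 0 := by
  rintro rfl
  rw [zero_sub, norm_neg, norm_one] at hw
  linarith [rho_lt_one]

/-- `w ↦ 1 + z w` maps the disc into itself. -/
lemma disc_A {z w : ℂ} (hz : ‖z‖ ≤ rho ^ 2) (hw : ‖w - 1‖ ≤ rho) : ‖1 + z * w - 1‖ ≤ rho := by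
  have h1 : ‖w‖ ≤ 1 + rho := by
    calc ‖w‖ = ‖(w - 1) + 1‖ := by ring_nf
      _ ≤ ‖w - 1‖ + ‖(1 : ℂ)‖ := norm_add_le _ _
      _ ≤ 1 + rho := by rw [norm_one]; linarith
  have h2 : 1 + z * w - 1 = z * w := by ring
  rw [h2, norm_mul]
  calc ‖z‖ * ‖w‖ ≤ rho ^ 2 * (1 + rho) :=
        mul_le_mul hz h1 (norm_nonneg _) (by positivity)
    _ = rho := by have := rho_sq; nlinarith

/-- `w ↦ 1 + z - z / w` maps the disc into itself. -/
lemma disc_B {z w : ℂ} (hz : ‖z‖ ≤ rho ^ 2) (hw : ‖w - 1‖ ≤ rho) : ‖1 + z - z / w - 1‖ ≤ rho := by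
  have h0 := ne_zero_of_disc hw
  have h1 : 1 - rho ≤ ‖w‖ := by
    have : ‖(1 : ℂ)‖ ≤ ‖w‖ + ‖w - 1‖ := by
      calc ‖(1 : ℂ)‖ = ‖w - (w - 1)‖ := by ring_nf
        _ ≤ ‖w‖ + ‖w - 1‖ := norm_sub_le _ _
    rw [norm_one] at this
    linarith
  have h2 : 1 + z - z / w - 1 = z * (w - 1) / w := by field_simp; ring
  rw [h2, norm_div, norm_mul, div_le_iff₀ (norm_pos_iff.2 h0)]
  calc ‖z‖ * ‖w - 1‖ ≤ rho ^ 2 * rho :=
        mul_le_mul hz hw (norm_nonneg _) (by positivity)
    _ = rho * (1 - rho) := by rw [rho_sq]; ring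
    _ ≤ rho * ‖w‖ := mul_le_mul_of_nonneg_left h1 rho_pos.le

/-- the maps `w ↦ [c]_z - z ^ (c - 1) / w` with `c = d + 2` map the disc into itself -/
lemma disc_T {z w : ℂ} (hz : ‖z‖ ≤ rho ^ 2) (hw : ‖w - 1‖ ≤ rho) (d : ℕ) :
    ‖(∑ i ∈ Finset.range (d + 2), z ^ i) - z ^ (d + 1) / w - 1‖ ≤ rho := by
  induction d with
  | zero =>
    have := disc_B hz hw
    simpa [Finset.sum_range_succ] using this
  | succ d ih =>
    have h := disc_A hz ih
    have h1 : (∑ i ∈ Finset.range (d + 1 + 2), z ^ i) - z ^ (d + 1 + 1) / w =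
        1 + z * ((∑ i ∈ Finset.range (d + 2), z ^ i) - z ^ (d + 1) / w) := by
      rw [show d + 1 + 2 = (d + 2) + 1 from rfl, Finset.sum_range_succ']
      rw [mul_sub, Finset.mul_sum]
      have : ∀ i ∈ Finset.range (d + 2), z ^ (i + 1) = z * z ^ i := fun i _ => by ring
      rw [Finset.sum_congr rfl this]
      ring
    rw [h1]
    exact h

lemma disc_sum {z : ℂ} (hz : ‖z‖ ≤ rho ^ 2) (d : ℕ) :
    ‖(∑ i ∈ Finset.range (d + 1), z ^ i) - 1‖ ≤ rho := by
  induction d with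
  | zero => simp [rho_pos.le]
  | succ d ih =>
    have h := disc_A hz ih
    have h1 : (∑ i ∈ Finset.range (d + 1 + 1), z ^ i) =
        1 + z * (∑ i ∈ Finset.range (d + 1), z ^ i) := by
      rw [Finset.sum_range_succ', Finset.mul_sum]
      have : ∀ i ∈ Finset.range (d + 1), z ^ (i + 1) = z * z ^ i := fun i _ => by ring
      rw [Finset.sum_congr rfl this]
      ring
    rw [h1]
    exact h

/-- the truncations as functions of `z` -/
def fn : ℕ → (ℕ → ℕ) → ℂ → ℂ
  | 0, c => fun z => ∑ i ∈ Finset.range (c 0), z ^ i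
  | N + 1, c => fun z => (∑ i ∈ Finset.range (c 0), z ^ i) - z ^ (c 0 - 1) /
      fn N (fun j => c (j + 1)) z

lemma fn_disc (N : ℕ) : ∀ c : ℕ → ℕ, (∀ j, 2 ≤ c j) → ∀ z : ℂ, ‖z‖ ≤ rho ^ 2 →
    ‖fn N c z - 1‖ ≤ rho := by
  induction N with
  | zero =>
    intro c hc z hz
    obtain ⟨d, hd⟩ : ∃ d, c 0 = d + 1 := ⟨c 0 - 1, by have := hc 0; omega⟩
    rw [fn, hd]
    exact disc_sum hz d
  | succ N ih =>
    intro c hc z hz
    obtain ⟨d, hd⟩ : ∃ d, c 0 = d + 2 := ⟨c 0 - 2, by have := hc 0; omega⟩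
    rw [fn, hd]
    exact disc_T hz (ih _ (fun j => hc (j + 1)) z hz) d

lemma fn_differentiableAt (N : ℕ) : ∀ c : ℕ → ℕ, (∀ j, 2 ≤ c j) → ∀ z : ℂ, ‖z‖ ≤ rho ^ 2 →
    DifferentiableAt ℂ (fn N c) z := by
  induction N with
  | zero =>
    intro c hc z hz
    rw [fn]
    fun_prop
  | succ N ih =>
    intro c hc z hz
    rw [fn]
    have h1 := ih _ (fun j => hc (j + 1)) z hz
    have h2 := ne_zero_of_disc (fn_disc N _ (fun j => hc (j + 1)) z hz)
    have h3 : DifferentiableAt ℂ (fun z : ℂ => ∑ i ∈ Finset.range (c 0), z ^ i) z := by fun_prop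
    have h4 : DifferentiableAt ℂ (fun z : ℂ => z ^ (c 0 - 1)) z := by fun_prop
    exact h3.sub (h4.div h1 h2)

/-! ### Taylor series -/

/-- the Taylor series of `f` at `0` -/
def tay (f : ℂ → ℂ) : PowerSeries ℂ := PowerSeries.mk fun n => iteratedDeriv n f 0 / (n.factorial : ℂ)

lemma tay_mul {f g : ℂ → ℂ} (hf : AnalyticAt ℂ f 0) (hg : AnalyticAt ℂ g 0) :
    tay (f * g) = tay f * tay g := by
  ext n
  rw [PowerSeries.coeff_mul, tay, PowerSeries.coeff_mk, iteratedDeriv_mul hf.contDiffAt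
    hg.contDiffAt, Finset.sum_div, Finset.Nat.sum_antidiagonal_eq_sum_range_succ_mk]
  refine Finset.sum_congr rfl fun i hi => ?_
  have hi' : i ≤ n := by have := Finset.mem_range.1 hi; omega
  rw [tay, tay, PowerSeries.coeff_mk, PowerSeries.coeff_mk, Nat.cast_choose ℂ hi']
  have h1 : (n.factorial : ℂ) ≠ 0 := by exact_mod_cast n.factorial_ne_zero
  have h2 : (i.factorial : ℂ) ≠ 0 := by exact_mod_cast i.factorial_ne_zero
  have h3 : ((n - i).factorial : ℂ) ≠ 0 := by exact_mod_cast (n - i).factorial_ne_zero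
  field_simp

lemma tay_add {f g : ℂ → ℂ} (hf : AnalyticAt ℂ f 0) (hg : AnalyticAt ℂ g 0) :
    tay (f + g) = tay f + tay g := by
  ext n
  rw [map_add, tay, tay, tay, PowerSeries.coeff_mk, PowerSeries.coeff_mk, PowerSeries.coeff_mk,
    iteratedDeriv_add hf.contDiffAt hg.contDiffAt, add_div]

lemma tay_congr {f g : ℂ → ℂ} (h : f =ᶠ[𝓝 0] g) : tay f = tay g := by
  ext n
  rw [tay, tay, PowerSeries.coeff_mk, PowerSeries.coeff_mk, h.iteratedDeriv_eq n]

lemma tay_pow (k : ℕ) : tay (fun z => z ^ k) = PowerSeries.X ^ k := by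
  ext n
  rw [tay, PowerSeries.coeff_mk, iteratedDeriv_fun_pow_zero, PowerSeries.coeff_X_pow]
  split_ifs with h
  · subst h
    exact div_self (by exact_mod_cast n.factorial_ne_zero)
  · simp

lemma tay_zero : tay (fun _ => 0) = 0 := by
  ext n
  simp [tay]

lemma tay_sum (m : ℕ) : tay (fun z => ∑ i ∈ Finset.range m, z ^ i) =
    ∑ i ∈ Finset.range m, PowerSeries.X ^ i := by
  induction m with
  | zero => simpa using tay_zero
  | succ m ih =>
    have h1 : (fun z : ℂ => ∑ i ∈ Finset.range (m + 1), z ^ i) =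
        (fun z : ℂ => ∑ i ∈ Finset.range m, z ^ i) + (fun z : ℂ => z ^ m) := by
      funext z
      rw [Pi.add_apply, Finset.sum_range_succ]
    rw [h1, tay_add (by fun_prop) (by fun_prop), ih, tay_pow, Finset.sum_range_succ]

lemma fn_analyticAt (N : ℕ) (c : ℕ → ℕ) (hc : ∀ j, 2 ≤ c j) : AnalyticAt ℂ (fn N c) 0 := by
  have h : DifferentiableOn ℂ (fn N c) (Metric.ball 0 (rho ^ 2)) := fun z hz =>
    (fn_differentiableAt N c hc z
      (by rw [mem_ball_zero_iff] at hz; exact hz.le)).differentiableWithinAt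
  exact h.analyticAt (Metric.ball_mem_nhds 0 (by have := rho_pos; positivity))

lemma tay_fn (N : ℕ) : ∀ c : ℕ → ℕ, (∀ j, 2 ≤ c j) →
    tay (fn N c) = PowerSeries.map (algebraMap ℚ ℂ) (pTrunc N c) := by
  induction N with
  | zero =>
    intro c _
    rw [fn, tay_sum, pTrunc, pInt, map_sum]
    simp
  | succ N ih =>
    intro c hc
    have hc' : ∀ j, 2 ≤ (fun j => c (j + 1)) j := fun j => hc (j + 1)
    have ha := fn_analyticAt (N + 1) c hc
    have hb := fn_analyticAt N _ hc'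
    set c' : ℕ → ℕ := fun j => c (j + 1) with hcdef
    -- the functional equation
    have h1 : (fn (N + 1) c * fn N c' + fun z => z ^ (c 0 - 1)) =ᶠ[𝓝 0]
        ((fun z => ∑ i ∈ Finset.range (c 0), z ^ i) * fn N c') := by
      have hball : Metric.ball (0 : ℂ) (rho ^ 2) ∈ 𝓝 (0 : ℂ) :=
        Metric.ball_mem_nhds 0 (by have := rho_pos; positivity)
      filter_upwards [hball] with z hz
      have h2 : fn N c' z ≠ 0 := ne_zero_of_disc (fn_disc N _ hc' z
        (by rw [mem_ball_zero_iff] at hz; exact hz.le))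
      simp only [Pi.add_apply, Pi.mul_apply, fn]
      rw [← hcdef]
      field_simp
      ring
    have h2 := tay_congr h1
    rw [tay_add (ha.mul hb) (by fun_prop), tay_mul ha hb, tay_mul (by fun_prop) hb, tay_pow,
      tay_sum, ih _ hc'] at h2
    have h3 : pTrunc N c' * (pTrunc N c')⁻¹ = 1 :=
      PowerSeries.mul_inv_cancel _ (by rw [constCoeff_pTrunc N _ hc']; exact one_ne_zero)
    have h4 : pTrunc (N + 1) c * pTrunc N c' + PowerSeries.X ^ (c 0 - 1) =
        pInt (c 0) * pTrunc N c' := by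
      rw [pTrunc.eq_2 c N, ← hcdef]
      linear_combination (- (PowerSeries.X : PowerSeries ℚ) ^ (c 0 - 1)) * h3
    have h5 := congrArg (PowerSeries.map (algebraMap ℚ ℂ)) h4
    have h6 : PowerSeries.map (algebraMap ℚ ℂ) (pInt (c 0)) =
        ∑ i ∈ Finset.range (c 0), PowerSeries.X ^ i := by
      rw [pInt, map_sum]
      simp
    rw [map_add, map_mul, map_mul, h6, map_pow, PowerSeries.map_X, ← h2] at h5
    have h5' := add_right_cancel h5
    have h7 : PowerSeries.map (algebraMap ℚ ℂ) (pTrunc N c') ≠ 0 := by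
      intro h
      have h8 := congrArg (PowerSeries.coeff 0) h
      rw [PowerSeries.coeff_map, PowerSeries.coeff_zero_eq_constantCoeff_apply,
        constCoeff_pTrunc N _ hc'] at h8
      simp at h8
    exact (mul_right_cancel₀ h7 h5').symm

/-- Cauchy's estimates -/
lemma coeff_bound (N : ℕ) (c : ℕ → ℕ) (hc : ∀ j, 2 ≤ c j) (n : ℕ) :
    ‖((PowerSeries.coeff n (pTrunc N c) : ℚ) : ℂ)‖ * (rho ^ 2) ^ n ≤ 1 + rho := by
  have hr : 0 < rho ^ 2 := by have := rho_pos; positivity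
  have h1 : DiffContOnCl ℂ (fn N c) (Metric.ball 0 (rho ^ 2)) := by
    refine DifferentiableOn.diffContOnCl fun z hz => ?_
    have hz' : ‖z‖ ≤ rho ^ 2 := by
      have := Metric.closure_ball_subset_closedBall hz
      rwa [mem_closedBall_zero_iff] at this
    exact (fn_differentiableAt N c hc z hz').differentiableWithinAt
  have h2 : ∀ z ∈ Metric.sphere (0 : ℂ) (rho ^ 2), ‖fn N c z‖ ≤ 1 + rho := by
    intro z hz
    rw [mem_sphere_zero_iff_norm] at hz
    have h3 := fn_disc N c hc z hz.le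
    calc ‖fn N c z‖ = ‖(fn N c z - 1) + 1‖ := by ring_nf
      _ ≤ ‖fn N c z - 1‖ + ‖(1 : ℂ)‖ := norm_add_le _ _
      _ ≤ 1 + rho := by rw [norm_one]; linarith
  have h3 := Complex.norm_iteratedDeriv_le_of_forall_mem_sphere_norm_le n hr h1 h2
  have h4 := congrArg (PowerSeries.coeff n) (tay_fn N c hc)
  rw [tay, PowerSeries.coeff_mk, PowerSeries.coeff_map] at h4
  have h5 : ((PowerSeries.coeff n (pTrunc N c) : ℚ) : ℂ) =
      iteratedDeriv n (fn N c) 0 / (n.factorial : ℂ) := by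
    rw [h4]; rfl
  have hf : (0 : ℝ) < n.factorial := by exact_mod_cast n.factorial_pos
  rw [h5, norm_div, Complex.norm_natCast, div_mul_eq_mul_div, div_le_iff₀ hf]
  calc ‖iteratedDeriv n (fn N c) 0‖ * (rho ^ 2) ^ n
      ≤ n.factorial * (1 + rho) / (rho ^ 2) ^ n * (rho ^ 2) ^ n :=
        mul_le_mul_of_nonneg_right h3 (by positivity)
    _ = (1 + rho) * n.factorial := by field_simp

/-! ### Negative continued fractions -/

lemma trunc_bounds (N : ℕ) : ∀ c : ℕ → ℕ, (∀ j, 2 ≤ c j) →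
    (c 0 : ℝ) - 1 < trunc N c ∧ trunc N c ≤ c 0 := by
  induction N with
  | zero => intro c _; rw [trunc]; constructor <;> linarith
  | succ N ih =>
    intro c hc
    have h1 := ih (fun j => c (j + 1)) (fun j => hc (j + 1))
    have h2 : (2 : ℝ) ≤ ((fun j => c (j + 1)) 0 : ℕ) := by exact_mod_cast hc 1
    have h3 : 1 < trunc N (fun j => c (j + 1)) := by linarith [h1.1]
    rw [trunc]
    have h4 : 1 / trunc N (fun j => c (j + 1)) < 1 := by
      rw [div_lt_one (by linarith)]; exact h3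
    have h5 : 0 < 1 / trunc N (fun j => c (j + 1)) := by positivity
    constructor <;> linarith

lemma one_lt_trunc (N : ℕ) (c : ℕ → ℕ) (hc : ∀ j, 2 ≤ c j) : 1 < trunc N c := by
  have h1 := (trunc_bounds N c hc).1
  have h2 : (2 : ℝ) ≤ c 0 := by exact_mod_cast hc 0
  linarith

lemma trunc_succ_le (N : ℕ) (c : ℕ → ℕ) (hc : ∀ j, 2 ≤ c j) :
    trunc (N + 1) c ≤ c 0 - 1 / c 1 := by
  have h1 := (trunc_bounds N (fun j => c (j + 1)) (fun j => hc (j + 1))).2
  have h2 := one_lt_trunc N (fun j => c (j + 1)) (fun j => hc (j + 1))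
  rw [trunc]
  have h3 : 1 / (c 1 : ℝ) ≤ 1 / trunc N (fun j => c (j + 1)) :=
    one_div_le_one_div_of_le (by linarith) h1
  linarith

lemma IsExpansion.bounds {c : ℕ → ℕ} {x : ℝ} (h : IsExpansion c x) :
    (c 0 : ℝ) - 1 ≤ x ∧ x < c 0 := by
  have hpos : (0 : ℝ) < 1 / c 1 := by
    have : (2 : ℝ) ≤ c 1 := by exact_mod_cast h.1 1
    positivity
  constructor
  · exact ge_of_tendsto' h.2 fun N => (trunc_bounds N c h.1).1.le
  · have h1 : Tendsto (fun N => trunc (N + 1) c) atTop (𝓝 x) :=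
      (tendsto_add_atTop_iff_nat 1).2 h.2
    have h2 := le_of_tendsto' h1 fun N => trunc_succ_le N c h.1
    linarith

lemma IsExpansion.tail {c : ℕ → ℕ} {x : ℝ} (h : IsExpansion c x) :
    IsExpansion (fun j => c (j + 1)) (1 / (c 0 - x)) := by
  refine ⟨fun j => h.1 (j + 1), ?_⟩
  have h1 : Tendsto (fun N => trunc (N + 1) c) atTop (𝓝 x) :=
    (tendsto_add_atTop_iff_nat 1).2 h.2
  have h2 : Tendsto (fun N => 1 / ((c 0 : ℝ) - trunc (N + 1) c)) atTop (𝓝 (1 / (c 0 - x))) := by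
    refine Tendsto.div tendsto_const_nhds (tendsto_const_nhds.sub h1) ?_
    have := h.bounds.2
    linarith
  refine h2.congr fun N => ?_
  have h3 := one_lt_trunc N (fun j => c (j + 1)) (fun j => h.1 (j + 1))
  have h4 : (c 0 : ℝ) - (c 0 - 1 / trunc N (fun j => c (j + 1))) =
      1 / trunc N (fun j => c (j + 1)) := by ring
  rw [trunc, h4, one_div_one_div]

lemma IsExpansion.head {c d : ℕ → ℕ} {x : ℝ} (h : IsExpansion c x) (h' : IsExpansion d x) :
    c 0 = d 0 := by
  have h1 := h.bounds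
  have h2 := h'.bounds
  have h3 : ((c 0 : ℝ)) < d 0 + 1 := by linarith
  have h4 : ((d 0 : ℝ)) < c 0 + 1 := by linarith
  have h5 : c 0 < d 0 + 1 := by exact_mod_cast h3
  have h6 : d 0 < c 0 + 1 := by exact_mod_cast h4
  omega

lemma IsExpansion.unique (n : ℕ) : ∀ {c d : ℕ → ℕ} {x : ℝ}, IsExpansion c x → IsExpansion d x →
    c n = d n := by
  induction n with
  | zero => intro c d x h h'; exact h.head h'
  | succ n ih =>
    intro c d x h h'
    have h1 := h.tail
    have h2 := h'.tail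
    rw [← h.head h'] at h2
    exact ih h1 h2

/-- the digits -/
def dig : ℕ → ℝ → ℕ
  | 0, x => ⌊x⌋₊ + 1
  | n + 1, x => dig n (1 / ((⌊x⌋₊ : ℝ) + 1 - x))

lemma tail_ge {x : ℝ} (hx : 1 ≤ x) : 1 ≤ 1 / ((⌊x⌋₊ : ℝ) + 1 - x) := by
  have h1 := Nat.floor_le (by linarith : (0 : ℝ) ≤ x)
  have h2 := Nat.lt_floor_add_one x
  rw [le_div_iff₀ (by linarith)]
  linarith

lemma two_le_dig (n : ℕ) : ∀ x : ℝ, 1 ≤ x → 2 ≤ dig n x := by
  induction n with
  | zero =>
    intro x hx
    have : 1 ≤ ⌊x⌋₊ := Nat.le_floor (by simpa using hx)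
    rw [dig]; omega
  | succ n ih => intro x hx; exact ih _ (tail_ge hx)

lemma dig_error (N : ℕ) : ∀ x : ℝ, 1 ≤ x →
    x ≤ trunc N (fun n => dig n x) ∧ trunc N (fun n => dig n x) ≤ x + 1 / (N + 1) := by
  induction N with
  | zero =>
    intro x hx
    have h1 := Nat.floor_le (by linarith : (0 : ℝ) ≤ x)
    have h2 := Nat.lt_floor_add_one x
    rw [trunc, dig]
    push_cast
    constructor
    · linarith
    · norm_num; linarith
  | succ N ih =>
    intro x hx
    have h1 := Nat.floor_le (by linarith : (0 : ℝ) ≤ x)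
    have h2 := Nat.lt_floor_add_one x
    set y : ℝ := 1 / ((⌊x⌋₊ : ℝ) + 1 - x) with hy
    have hy1 : 1 ≤ y := tail_ge hx
    obtain ⟨h3, h4⟩ := ih y hy1
    have h5 : (fun j => (fun n => dig n x) (j + 1)) = fun n => dig n y := by
      funext j; rfl
    have hxy : x = (⌊x⌋₊ : ℝ) + 1 - 1 / y := by rw [hy, one_div_one_div]; ring
    rw [trunc, h5]
    set t : ℝ := trunc N (fun n => dig n y) with ht
    have ht1 : 0 < t := by linarith
    have hyp : 0 < y := by linarith
    have e1 : (((fun n => dig n x) 0 : ℕ) : ℝ) = (⌊x⌋₊ : ℝ) + 1 := by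
      show ((dig 0 x : ℕ) : ℝ) = _
      rw [dig]; push_cast; ring
    rw [e1]
    have h6 : 1 / t ≤ 1 / y := one_div_le_one_div_of_le hyp h3
    constructor
    · linarith
    · have h7 : 1 / y - 1 / t ≤ 1 / ((N + 1 : ℕ) + 1 : ℝ) := by
        have hN : (0 : ℝ) < (N : ℝ) + 1 := by positivity
        have h8 : t - y ≤ 1 / ((N : ℝ) + 1) := by linarith
        have h9 : (t - y) * ((N : ℝ) + 1) ≤ 1 := by
          rw [le_div_iff₀ hN] at h8; exact h8
        rw [div_sub_div _ _ hyp.ne' ht1.ne', div_le_div_iff₀ (by positivity) (by positivity)]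
        push_cast
        have h10 : t * y = y * y + y * (t - y) := by ring
        nlinarith [mul_nonneg (sub_nonneg.2 hy1) (sub_nonneg.2 h3), mul_nonneg hyp.le (sub_nonneg.2 h3)]
      linarith

lemma isExpansion_dig {x : ℝ} (hx : 1 ≤ x) : IsExpansion (fun n => dig n x) x := by
  refine ⟨fun n => two_le_dig n x hx, ?_⟩
  have h1 : Tendsto (fun N : ℕ => x + 1 / ((N : ℝ) + 1)) atTop (𝓝 (x + 0)) :=
    tendsto_const_nhds.add tendsto_one_div_add_atTop_nhds_zero_nat
  rw [add_zero] at h1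
  exact tendsto_of_tendsto_of_tendsto_of_le_of_le tendsto_const_nhds h1
    (fun N => (dig_error N x hx).1) (fun N => (dig_error N x hx).2)

/-! ### The function `x ↦ [x]_q` -/

lemma q_ne_zero : q ≠ 0 := by
  intro h
  have := congrArg (fun f : LaurentSeries ℚ => f.coeff 1) h
  simp [q] at this

lemma q_ne_one : (1 : LaurentSeries ℚ) - q ≠ 0 := by
  intro h
  have := congrArg (fun f : LaurentSeries ℚ => f.coeff 1) h
  simp [q, HahnSeries.coeff_one] at this

lemma coeff_q_mul (f : LaurentSeries ℚ) (k : ℤ) : (q * f).coeff (k + 1) = f.coeff k := by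
  rw [q, HahnSeries.coeff_single_mul_add, one_mul]

lemma qInt_succ (c : ℕ) : qInt (c + 1) = 1 + q * qInt c := by
  rw [qInt, qInt, Finset.sum_range_succ', Finset.mul_sum, pow_zero, add_comm]
  congr 1
  exact Finset.sum_congr rfl fun i _ => by ring

/-- `[x + d]_q` in terms of `f = [x]_q` -/
def sh (d : ℤ) (f : LaurentSeries ℚ) : LaurentSeries ℚ := (1 - q ^ d) / (1 - q) + q ^ d * f

lemma sh_zero (f : LaurentSeries ℚ) : sh 0 f = f := by simp [sh]

lemma sh_add_one (d : ℤ) (f : LaurentSeries ℚ) : sh (d + 1) f = 1 + q * sh d f := by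
  have h1 := q_ne_one
  rw [sh, sh, zpow_add_one₀ q_ne_zero]
  field_simp
  ring

lemma tendsto_A {f : ℕ → LaurentSeries ℚ} {g : LaurentSeries ℚ} (h : QAdicTendsto f g) :
    QAdicTendsto (fun N => 1 + q * f N) (1 + q * g) := by
  intro n
  filter_upwards [h (n - 1)] with N hN m hm
  rw [HahnSeries.coeff_add, HahnSeries.coeff_add]
  have e : m = (m - 1) + 1 := by ring
  have h1 : (q * f N).coeff m = (q * g).coeff m := by
    rw [e, coeff_q_mul, coeff_q_mul]
    exact hN _ (by omega)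
  rw [h1]

lemma tendsto_sh {f : ℕ → LaurentSeries ℚ} {g : LaurentSeries ℚ} (h : QAdicTendsto f g) (d : ℕ) :
    QAdicTendsto (fun N => sh d (f N)) (sh d g) := by
  induction d with
  | zero => simpa [sh_zero] using h
  | succ d ih =>
    have := tendsto_A ih
    simp only [← sh_add_one] at this
    exact_mod_cast this

lemma sh_step (d : ℕ) (T : LaurentSeries ℚ) :
    qInt (d + 2) - q ^ (d + 1) * T = sh d (qInt 2 - q * T) := by
  induction d with
  | zero => simp [sh_zero]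
  | succ d ih =>
    have h1 : sh ((d + 1 : ℕ) : ℤ) (qInt 2 - q * T) = 1 + q * sh d (qInt 2 - q * T) := by
      push_cast
      exact sh_add_one _ _
    rw [h1, ← ih, show d + 1 + 2 = (d + 2) + 1 from rfl, qInt_succ (d + 2)]
    ring

/-- replace the first digit by `2` -/
def low (c : ℕ → ℕ) : ℕ → ℕ := fun j => if j = 0 then 2 else c j

lemma qTrunc_low (N : ℕ) (c : ℕ → ℕ) (d : ℕ) (hd : c 0 = d + 2) :
    qTrunc N c = sh d (qTrunc N (low c)) := by
  cases N with
  | zero =>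
    rw [qTrunc, qTrunc, hd]
    have := sh_step d 0
    simpa [low] using this
  | succ N =>
    rw [qTrunc, qTrunc, hd]
    have h1 : (fun j => low c (j + 1)) = fun j => c (j + 1) := by
      funext j; simp [low]
    have h2 : low c 0 = 2 := by simp [low]
    have := sh_step d (1 / qTrunc N (fun j => c (j + 1)))
    rw [h1, h2]
    simpa [div_eq_mul_inv] using this

/-- the `q`-deformed real numbers -/
def qReal (x : ℝ) : LaurentSeries ℚ :=
  sh (⌊x⌋ - 1) ((pLim (fun n => dig n (x - (⌊x⌋ - 1 : ℤ))) : PowerSeries ℚ) : LaurentSeries ℚ)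

lemma isQReal_qReal : IsQReal qReal := by
  constructor
  · intro c x h
    have hb := h.bounds
    have h0 : (2 : ℝ) ≤ c 0 := by exact_mod_cast h.1 0
    have hx : 1 ≤ x := by linarith
    have hfl : ⌊x⌋ = (c 0 : ℤ) - 1 := by
      rw [Int.floor_eq_iff]
      push_cast
      constructor <;> linarith
    obtain ⟨d, hd⟩ : ∃ d, c 0 = d + 2 := ⟨c 0 - 2, by have := h.1 0; omega⟩
    have hm : ⌊x⌋ - 1 = (d : ℤ) := by rw [hfl, hd]; push_cast; ring
    have hlow : ∀ j, 2 ≤ low c j := by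
      intro j
      rw [low]
      split_ifs
      · exact le_rfl
      · exact h.1 j
    have hdR : ((c 0 : ℕ) : ℝ) = d + 2 := by rw [hd]; push_cast; ring
    -- the digits of `x - d`
    have hdig : (fun n => dig n (x - ((⌊x⌋ - 1 : ℤ) : ℝ))) = low c := by
      funext n
      rw [hm]
      push_cast
      have hfl2 : ⌊x - (d : ℝ)⌋₊ = 1 := by
        rw [Nat.floor_eq_iff (by linarith)]
        push_cast
        constructor <;> linarith
      cases n with
      | zero => rw [dig, hfl2]; simp [low]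
      | succ n =>
        rw [dig, hfl2]
        have e1 : (1 : ℝ) / (((1 : ℕ) : ℝ) + 1 - (x - d)) = 1 / (c 0 - x) := by
          rw [hdR]; push_cast; ring_nf
        rw [e1]
        have h3 := h.tail
        have h4 : (1 : ℝ) ≤ 1 / (c 0 - x) := by
          have h5 := h3.bounds.1
          have h6 : (2 : ℝ) ≤ ((fun j => c (j + 1)) 0 : ℕ) := by exact_mod_cast h.1 1
          linarith
        have h7 : dig n (1 / (c 0 - x)) = c (n + 1) :=
          IsExpansion.unique n (isExpansion_dig h4) h3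
        rw [h7, low, if_neg (Nat.succ_ne_zero n)]
    rw [qReal, hdig, hm]
    have h8 := tendsto_sh (tendsto_pLim (low c) hlow) d
    have h9 : (fun N => sh d (qTrunc N (low c))) = fun N => qTrunc N c := by
      funext N
      rw [qTrunc_low N c d hd]
    rw [h9] at h8
    exact h8
  · intro x
    have h1 : ⌊x - 1⌋ = ⌊x⌋ - 1 := Int.floor_sub_one x
    have h2 : x - 1 - ((⌊x⌋ - 1 - 1 : ℤ) : ℝ) = x - ((⌊x⌋ - 1 : ℤ) : ℝ) := by
      push_cast; ring
    rw [qReal, qReal, h1, h2]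
    set g : LaurentSeries ℚ :=
      ((pLim (fun n => dig n (x - ((⌊x⌋ - 1 : ℤ) : ℝ))) : PowerSeries ℚ) : LaurentSeries ℚ)
    have h3 : sh (⌊x⌋ - 1) g = 1 + q * sh (⌊x⌋ - 1 - 1) g := by
      rw [← sh_add_one]
      congr 1
      ring
    rw [h3]
    have := q_ne_zero
    field_simp
    ring

lemma IsQReal.eq_of_one_le {F G : ℝ → LaurentSeries ℚ} (hF : IsQReal F) (hG : IsQReal G) {x : ℝ}
    (hx : 1 ≤ x) : F x = G x :=
  tendsto_unique (hF.expansion _ _ (isExpansion_dig hx)) (hG.expansion _ _ (isExpansion_dig hx))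

lemma IsQReal.eq {F G : ℝ → LaurentSeries ℚ} (hF : IsQReal F) (hG : IsQReal G) : F = G := by
  have key : ∀ n : ℕ, ∀ x : ℝ, 1 ≤ x + n → F x = G x := by
    intro n
    induction n with
    | zero => intro x hx; exact hF.eq_of_one_le hG (by simpa using hx)
    | succ n ih =>
      intro x hx
      have h1 := ih (x + 1) (by push_cast at hx; linarith)
      have h2 := hF.shift (x + 1)
      have h3 := hG.shift (x + 1)
      rw [add_sub_cancel_right] at h2 h3
      rw [h2, h3, h1]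
  funext x
  obtain ⟨n, hn⟩ := exists_nat_ge (1 - x)
  exact key n x (by linarith)

/-! ### The radius of convergence -/

/-- the coefficients are `O (ρ ^ (-2 n))` -/
def Bd (f : LaurentSeries ℚ) : Prop :=
  ∃ C : ℝ, ∀ n : ℕ, ‖((f.coeff (n : ℤ) : ℚ) : ℂ)‖ * (rho ^ 2) ^ n ≤ C

lemma bd_pLim (c : ℕ → ℕ) (hc : ∀ j, 2 ≤ c j) : Bd ((pLim c : PowerSeries ℚ) : LaurentSeries ℚ) := by
  refine ⟨1 + rho, fun n => ?_⟩
  rw [coe_coeff_nat, pLim, PowerSeries.coeff_mk]
  exact coeff_bound n c hc n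

lemma bd_shift {f : LaurentSeries ℚ} (h : Bd f) : Bd (q⁻¹ * (f - 1)) := by
  obtain ⟨C, hC⟩ := h
  have hr : 0 < rho ^ 2 := by have := rho_pos; positivity
  refine ⟨C / rho ^ 2, fun n => ?_⟩
  have h1 : q * (q⁻¹ * (f - 1)) = f - 1 := by
    rw [← mul_assoc, mul_inv_cancel₀ q_ne_zero, one_mul]
  have h2 : (q⁻¹ * (f - 1)).coeff (n : ℤ) = f.coeff ((n + 1 : ℕ) : ℤ) := by
    rw [← coeff_q_mul, h1, HahnSeries.coeff_sub, HahnSeries.coeff_one, if_neg (by omega), sub_zero]
    push_cast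
    rfl
  rw [h2, le_div_iff₀ hr]
  calc ‖((f.coeff ((n + 1 : ℕ) : ℤ) : ℚ) : ℂ)‖ * (rho ^ 2) ^ n * rho ^ 2
      = ‖((f.coeff ((n + 1 : ℕ) : ℤ) : ℚ) : ℂ)‖ * (rho ^ 2) ^ (n + 1) := by ring
    _ ≤ C := hC (n + 1)

lemma bd_of_isQReal {F : ℝ → LaurentSeries ℚ} (hF : IsQReal F) (x : ℝ) : Bd (F x) := by
  have key : ∀ n : ℕ, ∀ x : ℝ, 1 ≤ x + n → Bd (F x) := by
    intro n
    induction n with
    | zero =>
      intro x hx
      have hx' : 1 ≤ x := by simpa using hx
      have h1 := isExpansion_dig hx'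
      rw [tendsto_unique (hF.expansion _ _ h1) (tendsto_pLim _ h1.1)]
      exact bd_pLim _ h1.1
    | succ n ih =>
      intro x hx
      have h1 := ih (x + 1) (by push_cast at hx; linarith)
      have h2 := hF.shift (x + 1)
      rw [add_sub_cancel_right] at h2
      rw [h2]
      exact bd_shift h1
  obtain ⟨n, hn⟩ := exists_nat_ge (1 - x)
  exact key n x (by linarith)

lemma radius_of_bd {f : LaurentSeries ℚ} (h : Bd f) : ENNReal.ofReal ((3 - √5) / 2) ≤ radius f := by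
  obtain ⟨C, hC⟩ := h
  have hr : 0 < rho ^ 2 := by have := rho_pos; positivity
  rw [← rho_sq_eq, ENNReal.ofReal_eq_coe_nnreal hr.le, radius]
  refine FormalMultilinearSeries.le_radius_of_bound _ C fun n => ?_
  rw [FormalMultilinearSeries.ofScalars_norm]
  exact hC n

/-- **The radius of convergence of the `q`-deformed real numbers.** There is exactly one function
`F`, `F x = [x]_q`, as in `IsQReal`, and for it the radius of convergence of the series `[x]_q` is
at least `(3 - √5) / 2`, for every real number `x`. -/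
theorem result : (∃! F : ℝ → LaurentSeries ℚ, IsQReal F) ∧
    ∀ F : ℝ → LaurentSeries ℚ, IsQReal F →
      ∀ x : ℝ, ENNReal.ofReal ((3 - √5) / 2) ≤ radius (F x) :=
  ⟨⟨qReal, isQReal_qReal, fun _ hG => hG.eq isQReal_qReal⟩,
    fun _ hF x => radius_of_bd (bd_of_isQReal hF x)⟩

end

end Pool.Agent.Results.MP_b13893_an.RadiusBound
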